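import Pool.Agent.H42.Dom4

/-!
# MP_9098dd_gt, Q1: finite powers and the selection principle `S_1(D_Omega, D_Omega)`

(Formerly a hand-in, withdrawn: both halves are theorems of the starting library `Pool.Agent.H42`.)

`S1 X` is the selection principle `S_1(D_Omega, D_Omega)` of the problem and `Sfin X` is
`S_fin(D_Omega, D_Omega)`; both, and free Suslin trees, are defined in `Pool/Agent/H42/DomDefs.lean`.

The preservation of `S_1(D_Omega, D_Omega)` under finite powers is equivalent to the non-existence of a
free Suslin tree, so it is independent of ZFC. If there is a free Suslin tree there is even a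
zero-dimensional Hausdorff space which satisfies `S_1(D_Omega, D_Omega)` and whose square does not
satisfy `S_fin(D_Omega, D_Omega)`.
-/

namespace Pool.Agent.K6.H69.Moved.RothbergerPowers

open Pool.Agent.H42.Dom

universe u

theorem result :
    ((¬ ∃ (T : Type) (_ : PartialOrder T), FreeSuslin T) →
      ∀ (X : Type u) [TopologicalSpace X] (k : ℕ), S1 X → S1 (Fin k → X)) ∧
    ((∃ (T : Type) (_ : PartialOrder T), FreeSuslin T) →
      ∃ (X : Type) (_ : TopologicalSpace X), T2Space X ∧
        TopologicalSpace.IsTopologicalBasis {s : Set X | IsClopen s} ∧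
        S1 X ∧ ¬ S1 (Fin 2 → X) ∧ ¬ Sfin (Fin 2 → X)) := by
  refine ⟨fun hn X _ k h => s1_iff.2 (Pool.Agent.H42.Dom.pos hn (s1_iff.1 h) k), ?_⟩
  rintro ⟨T, _, hT⟩
  refine ⟨Flag T, Pool.Agent.H42.Dom.top T, t2 hT, zerodim hT, sel_tree hT, fun h => ?_,
    fun h => not_sq hT ((@sfin_iff _ (_)).1 h)⟩
  exact not_sq hT (@sel_weak _ (_) _ ((@s1_iff _ (_)).1 h))

end Pool.Agent.K6.H69.Moved.RothbergerPowers
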